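import Mathlib

namespace Pool.Agent.TH139

theorem torsion (ℓ : ℕ) (hℓ : ℓ.Prime) (T k : ℕ) :
    ∃ M : ℕ, 0 < M ∧ (∀ p, p.Prime → p ≤ T → p.Coprime M) ∧
      2 ^ k ≤ Nat.card {x : (ZMod M)ˣ // x ^ ℓ = 1} := by
  induction k with
  | zero =>
    refine ⟨1, one_pos, fun p _ _ => Nat.coprime_one_right p, ?_⟩
    rw [pow_zero]
    have : Nonempty {x : (ZMod 1)ˣ // x ^ ℓ = 1} := ⟨⟨1, one_pow _⟩⟩
    exact Nat.card_pos
  | succ k ih =>
    obtain ⟨M, hM, hT, hk⟩ := ih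
    obtain ⟨q, hq, hqM, hql⟩ := Nat.exists_prime_gt_modEq_one (k := ℓ) (M + T) hℓ.ne_zero
    have hqf : Fact q.Prime := ⟨hq⟩
    have hMz : NeZero M := ⟨hM.ne'⟩
    have hcop : M.Coprime q := by
      rw [Nat.coprime_comm, hq.coprime_iff_not_dvd]
      intro h
      have := Nat.le_of_dvd hM h
      omega
    refine ⟨M * q, Nat.mul_pos hM hq.pos, ?_, ?_⟩
    · intro p hp hpT
      refine Nat.Coprime.mul_right (hT p hp hpT) ?_
      rw [Nat.coprime_primes hp hq]
      omega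
    · have hMq : NeZero (M * q) := ⟨(Nat.mul_pos hM hq.pos).ne'⟩
      let e : (ZMod (M * q))ˣ ≃* (ZMod M)ˣ × (ZMod q)ˣ :=
        (Units.mapEquiv (ZMod.chineseRemainder hcop).toMulEquiv).trans MulEquiv.prodUnits
      let f : {x : (ZMod M)ˣ // x ^ ℓ = 1} × {x : (ZMod q)ˣ // x ^ ℓ = 1} →
          {x : (ZMod (M * q))ˣ // x ^ ℓ = 1} := fun x => ⟨e.symm (x.1.1, x.2.1), by
        rw [← map_pow, Prod.pow_mk, x.1.2, x.2.2]
        exact map_one _⟩
      have hf : Function.Injective f := by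
        intro x y h
        have h1 := congrArg Subtype.val h
        have h2 := e.symm.injective h1
        have h3 := (Prod.mk.injEq _ _ _ _).mp h2
        exact Prod.ext (Subtype.ext h3.1) (Subtype.ext h3.2)
      have h1 := Nat.card_le_card_of_injective f hf
      rw [Nat.card_prod] at h1
      have h2 : 2 ≤ Nat.card {x : (ZMod q)ˣ // x ^ ℓ = 1} := by
        have hd : ℓ ∣ Nat.card (ZMod q)ˣ := by
          rw [Nat.card_eq_fintype_card, ZMod.card_units_eq_totient, Nat.totient_prime hq]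
          exact (Nat.modEq_iff_dvd' hq.one_le).1 hql.symm
        have : Fact ℓ.Prime := ⟨hℓ⟩
        obtain ⟨x, hx⟩ := exists_prime_orderOf_dvd_card' ℓ hd
        have hx1 : x ≠ 1 := by
          rintro rfl
          rw [orderOf_one] at hx
          exact hℓ.one_lt.ne hx
        have hnt : Nontrivial {x : (ZMod q)ˣ // x ^ ℓ = 1} :=
          ⟨⟨1, one_pow _⟩, ⟨x, by rw [← hx]; exact pow_orderOf_eq_one x⟩, fun h => hx1
            (congrArg Subtype.val h).symm⟩
        exact Finite.one_lt_card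
      calc 2 ^ (k + 1) = 2 ^ k * 2 := pow_succ 2 k
        _ ≤ _ := Nat.mul_le_mul hk h2
        _ ≤ _ := h1

theorem idx_step {A : Type} [CommGroup A] [Finite A] {ℓ : ℕ} (hℓ : 0 < ℓ) (B : Subgroup A)
    (hB : ∀ x, x ^ ℓ ∈ B) (s : A) : B.index ≤ ℓ * (B ⊔ Subgroup.zpowers s).index := by
  have h1 := Subgroup.relIndex_mul_index (le_sup_left : B ≤ B ⊔ Subgroup.zpowers s)
  rw [← h1]
  refine Nat.mul_le_mul_right _ ?_
  let C : Subgroup A := B ⊔ Subgroup.zpowers s
  have hs : s ∈ C := (le_sup_right : Subgroup.zpowers s ≤ C) (Subgroup.mem_zpowers s)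
  let f : Fin ℓ → C ⧸ B.subgroupOf C := fun i => QuotientGroup.mk ((⟨s, hs⟩ : C) ^ (i : ℕ))
  have hf : Function.Surjective f := by
    intro q
    obtain ⟨⟨x, hx⟩, rfl⟩ := QuotientGroup.mk_surjective q
    obtain ⟨b, hb, z, hz, hbz⟩ := Subgroup.mem_sup.1 hx
    obtain ⟨k, rfl⟩ := Subgroup.mem_zpowers_iff.1 hz
    have hl : (0 : ℤ) < ℓ := by exact_mod_cast hℓ
    have hm0 : 0 ≤ k % ℓ := Int.emod_nonneg _ hl.ne'
    have hm1 : k % ℓ < ℓ := Int.emod_lt_of_pos _ hl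
    refine ⟨⟨(k % ℓ).toNat, by omega⟩, ?_⟩
    refine QuotientGroup.eq.2 ?_
    rw [Subgroup.mem_subgroupOf]
    simp only [Subgroup.coe_mul, Subgroup.coe_inv, SubmonoidClass.coe_pow]
    have e : (s ^ (k % ℓ).toNat)⁻¹ * x = b * (s ^ ℓ) ^ (k / ℓ) := by
      have h2 : s ^ (k % ℓ).toNat = s ^ (k % (ℓ : ℤ)) := by
        rw [← zpow_natCast, Int.toNat_of_nonneg hm0]
      have h3 : s ^ k = s ^ (k % (ℓ : ℤ)) * (s ^ ℓ) ^ (k / ℓ) := by
        rw [← zpow_natCast s ℓ, ← zpow_mul, ← zpow_add, Int.emod_add_mul_ediv]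
      rw [h2, ← hbz, h3, mul_left_comm, inv_mul_cancel_left]
    rw [e]
    exact B.mul_mem hb (B.zpow_mem (hB s) _)
  have h2 := Nat.card_le_card_of_surjective f hf
  rw [Nat.card_fin] at h2
  exact h2

theorem idx {A : Type} [CommGroup A] [Finite A] {ℓ : ℕ} (hℓ : 0 < ℓ) (S : Finset A) :
    ∃ B : Subgroup A, (∀ x, x ^ ℓ ∈ B) ∧ (∀ s ∈ S, s ∈ B) ∧
      Nat.card {x : A // x ^ ℓ = 1} ≤ ℓ ^ S.card * B.index := by
  classical
  induction S using Finset.induction_on with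
  | empty =>
    refine ⟨(powMonoidHom ℓ : A →* A).range, fun x => ⟨x, rfl⟩, fun s hs => ?_, ?_⟩
    · simp at hs
    · have h1 := (powMonoidHom ℓ : A →* A).range.card_mul_index
      have h2 := (powMonoidHom ℓ : A →* A).ker.card_mul_index
      rw [Subgroup.index_ker, mul_comm] at h2
      have h3 : 0 < Nat.card (powMonoidHom ℓ : A →* A).range := Nat.card_pos
      have h4 := Nat.eq_of_mul_eq_mul_left h3 (h1.trans h2.symm)
      rw [Finset.card_empty, pow_zero, one_mul, h4]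
      exact le_rfl
  | insert s S hs ih =>
    obtain ⟨B, h1, h2, h3⟩ := ih
    refine ⟨B ⊔ Subgroup.zpowers s, fun x => (le_sup_left : B ≤ _) (h1 x), ?_, ?_⟩
    · intro t ht
      rcases Finset.mem_insert.1 ht with rfl | ht
      · exact (le_sup_right : Subgroup.zpowers t ≤ _) (Subgroup.mem_zpowers t)
      · exact (le_sup_left : B ≤ _) (h2 t ht)
    · rw [Finset.card_insert_of_notMem hs, pow_succ, mul_assoc]
      exact h3.trans (Nat.mul_le_mul_left _ (idx_step hℓ B h1 s))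

theorem compl_add (W : Type) [AddCommGroup W] (ℓ : ℕ) [Fact ℓ.Prime] [Module (ZMod ℓ) W] :
    ComplementedLattice (AddSubgroup W) :=
  (OrderIso.complementedLattice_iff
    (AddSubgroup.toZModSubmodule ℓ : AddSubgroup W ≃o Submodule (ZMod ℓ) W)).2 inferInstance

theorem exists_compl {V : Type} [CommGroup V] {ℓ : ℕ} (hℓ : ℓ.Prime) (hexp : ∀ x : V, x ^ ℓ = 1)
    (W : Subgroup V) : ∃ Z : Subgroup V, IsCompl W Z := by
  have hF : Fact ℓ.Prime := ⟨hℓ⟩
  have h : ComplementedLattice (AddSubgroup (Additive V)) := by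
    let I : Module (ZMod ℓ) (Additive V) := AddCommGroup.zmodModule (n := ℓ) (by
      intro x
      exact hexp x.toMul)
    exact compl_add (Additive V) ℓ
  have hc : ComplementedLattice (Subgroup V) :=
    (OrderIso.complementedLattice_iff (Subgroup.toAddSubgroup (G := V))).2 h
  exact hc.exists_isCompl W

theorem compl {Γ : Type} [Group Γ] (U0 : Subgroup Γ) [hU : U0.Normal] [hfin : Finite (Γ ⧸ U0)]
    {ℓ : ℕ} (hℓ : ℓ.Prime) (hab : ∀ x y : Γ, x * y * x⁻¹ * y⁻¹ ∈ U0) (hexp : ∀ x : Γ, x ^ ℓ ∈ U0)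
    (W : Subgroup Γ) (hW : W.index ≠ 0) :
    ∃ U : Subgroup Γ, U0 ≤ U ∧ (∀ g, ∃ u ∈ U, ∃ w ∈ W, g = u * w) ∧
      U0.index ≤ W.index * U.index := by
  let I : CommGroup (Γ ⧸ U0) := { (inferInstance : Group (Γ ⧸ U0)) with
    mul_comm := by
      intro x y
      obtain ⟨x, rfl⟩ := QuotientGroup.mk_surjective x
      obtain ⟨y, rfl⟩ := QuotientGroup.mk_surjective y
      have h := (QuotientGroup.eq_one_iff _).2 (hab x y)
      rw [QuotientGroup.mk_mul, QuotientGroup.mk_mul, QuotientGroup.mk_mul, QuotientGroup.mk_inv,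
        QuotientGroup.mk_inv, mul_inv_eq_one, mul_inv_eq_iff_eq_mul] at h
      exact h }
  have hexp' : ∀ x : Γ ⧸ U0, x ^ ℓ = 1 := by
    intro x
    obtain ⟨x, rfl⟩ := QuotientGroup.mk_surjective x
    rw [← QuotientGroup.mk_pow]
    exact (QuotientGroup.eq_one_iff _).2 (hexp x)
  obtain ⟨Z, hZ⟩ := exists_compl hℓ hexp' (W.map (QuotientGroup.mk' U0))
  refine ⟨Z.comap (QuotientGroup.mk' U0), ?_, ?_, ?_⟩
  · intro u hu
    refine Subgroup.mem_comap.2 ?_
    have : QuotientGroup.mk' U0 u = 1 := (QuotientGroup.eq_one_iff u).2 hu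
    rw [this]
    exact Z.one_mem
  · intro g
    have h1 : QuotientGroup.mk' U0 g ∈ W.map (QuotientGroup.mk' U0) ⊔ Z := by
      rw [hZ.sup_eq_top]
      exact Subgroup.mem_top _
    obtain ⟨a, ha, z, hz, haz⟩ := Subgroup.mem_sup.1 h1
    obtain ⟨w, hw, rfl⟩ := ha
    refine ⟨g * w⁻¹, ?_, w, hw, by group⟩
    refine Subgroup.mem_comap.2 ?_
    rw [map_mul, map_inv, ← haz, mul_comm, inv_mul_cancel_left]
    exact hz
  · rw [Subgroup.index_comap_of_surjective _ (QuotientGroup.mk'_surjective U0)]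
    have h1 : U0.index = Nat.card Z * Z.index := by
      rw [Z.card_mul_index]
      rfl
    rw [h1]
    refine Nat.mul_le_mul_right _ ?_
    have h2 : (W.map (QuotientGroup.mk' U0)).index ≤ W.index := by
      refine Nat.le_of_dvd (Nat.pos_of_ne_zero hW) ?_
      exact Subgroup.index_map_dvd _ (QuotientGroup.mk'_surjective U0)
    refine le_trans ?_ h2
    let f : Z → (Γ ⧸ U0) ⧸ (W.map (QuotientGroup.mk' U0)) := fun z => QuotientGroup.mk (z : Γ ⧸ U0)
    have hf : Function.Injective f := by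
      intro z1 z2 h
      have h3 := QuotientGroup.eq.1 h
      have h4 : (z1 : Γ ⧸ U0)⁻¹ * z2 ∈ Z := Z.mul_mem (Z.inv_mem z1.2) z2.2
      have h5 : (z1 : Γ ⧸ U0)⁻¹ * z2 ∈ (W.map (QuotientGroup.mk' U0)) ⊓ Z := ⟨h3, h4⟩
      rw [hZ.inf_eq_bot, Subgroup.mem_bot, inv_mul_eq_one] at h5
      exact Subtype.ext h5
    exact Nat.card_le_card_of_injective f hf

end Pool.Agent.TH139
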