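import Pool.Agent.TH965.St.Transfer
import Pool.Agent.TH139.Grp2

open NumberField
open Pool.Agent.TH965.St

namespace Pool.Agent.TH139

theorem chi_surj {M : ℕ} [NeZero M] {ζ : Qb} (hζ : IsPrimitiveRoot ζ M) :
    Function.Surjective (hζ.autToPow ℚ : GQ →* (ZMod M)ˣ) := by
  intro t
  have h1 : IsPrimitiveRoot (ζ ^ (t : ZMod M).val) M :=
    hζ.pow_of_coprime _ (ZMod.val_coe_unit_coprime t)
  have h2 : minpoly ℚ ζ = minpoly ℚ (ζ ^ (t : ZMod M).val) := by
    have e1 := Polynomial.cyclotomic_eq_minpoly_rat hζ (NeZero.pos M)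
    have e2 := Polynomial.cyclotomic_eq_minpoly_rat h1 (NeZero.pos M)
    rw [← e1, ← e2]
  obtain ⟨g, hg⟩ := isConjRoot_iff_exists_algEquiv.1 (h2.symm : IsConjRoot ℚ _ ζ)
  refine ⟨g, ?_⟩
  have h3 := hζ.autToPow_spec ℚ g
  rw [hg] at h3
  have h4 := hζ.pow_inj (ZMod.val_lt _) (ZMod.val_lt _) h3
  exact Units.ext (ZMod.val_injective M h4)

theorem chi_eq_of {M : ℕ} [NeZero M] {ζ : Qb} (hζ : IsPrimitiveRoot ζ M) {g : GQ} {t : (ZMod M)ˣ}
    {n : ℕ} (hn : ((n : ℕ) : ZMod M) = t) (h : g ζ = ζ ^ n) : hζ.autToPow ℚ g = t := by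
  have h3 := hζ.autToPow_spec ℚ g
  have h4 : ζ ^ n = ζ ^ (n % M) := by
    conv_lhs => rw [← Nat.mod_add_div n M]
    rw [pow_add, pow_mul, hζ.pow_eq_one, one_pow, mul_one]
  rw [h, h4] at h3
  have h5 := hζ.pow_inj (ZMod.val_lt _) (Nat.mod_lt _ (NeZero.pos M)) h3
  apply Units.ext
  rw [← hn, ← ZMod.natCast_zmod_val ((hζ.autToPow ℚ g : (ZMod M)ˣ) : ZMod M), h5,
    ZMod.natCast_mod]

theorem chi_cc {M : ℕ} [NeZero M] {ζ : Qb} (hζ : IsPrimitiveRoot ζ M) {c : GQ} (hc : IsCC c) :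
    hζ.autToPow ℚ c = -1 := by
  obtain ⟨τ, hτ⟩ := hc
  have h1 : c ζ * ζ = 1 := by
    apply τ.injective
    rw [map_mul, hτ, map_one, mul_comm, Complex.mul_conj, Complex.normSq_eq_norm_sq]
    have h2 : (τ ζ) ^ M = 1 := by rw [← map_pow, hζ.pow_eq_one, map_one]
    rw [Complex.norm_eq_one_of_pow_eq_one h2 (NeZero.ne M)]
    norm_num
  have h2 : c ζ = ζ ^ (M - 1) := by
    have h3 : ζ ^ (M - 1) * ζ = 1 := by
      rw [← pow_succ, Nat.sub_add_cancel (NeZero.pos M), hζ.pow_eq_one]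
    have h0 : ζ ≠ 0 := hζ.ne_zero (NeZero.ne M)
    exact mul_right_cancel₀ h0 (h1.trans h3.symm)
  refine chi_eq_of hζ ?_ h2
  rw [Nat.cast_sub (NeZero.pos M), ZMod.natCast_self]
  simp

/-- The cyclotomic construction. `Loc` is a set of elements of the Galois group whose cyclotomic
characters lie in the subgroup generated by `-1` and the primes up to `T`. -/
theorem exists_L (T : ℕ) (Loc : GQ → Prop)
    (hLoc : ∀ (M : ℕ) [NeZero M] (ζ : Qb) (hζ : IsPrimitiveRoot ζ M),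
      (∀ p, p.Prime → p ≤ T → p.Coprime M) → ∀ B : Subgroup (ZMod M)ˣ, -1 ∈ B →
      (∀ p (hp : p.Coprime M), p.Prime → p ≤ T → ZMod.unitOfCoprime p hp ∈ B) →
      ∀ g, Loc g → hζ.autToPow ℚ g ∈ B)
    {K H : IntermediateField ℚ Qb} (hK : NumberField K) (hH : NumberField H) {ℓ : ℕ}
    (hℓ : ℓ.Prime) (N : ℕ) :
    ∃ L : IntermediateField ℚ Qb, NumberField L ∧ K ≤ L ∧
      (∀ x y : K.fixingSubgroup, x * y * x⁻¹ * y⁻¹ ∈ L.fixingSubgroup.subgroupOf K.fixingSubgroup) ∧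
      (∀ x : K.fixingSubgroup, x ^ ℓ ∈ L.fixingSubgroup.subgroupOf K.fixingSubgroup) ∧
      N ≤ (L.fixingSubgroup.subgroupOf K.fixingSubgroup).index ∧
      (∀ g ∈ K.fixingSubgroup, Loc g → g ∈ L.fixingSubgroup) ∧
      (∀ g : K.fixingSubgroup, ∃ g' ∈ L.fixingSubgroup.subgroupOf K.fixingSubgroup,
        g'⁻¹ * g ∈ H.fixingSubgroup.subgroupOf K.fixingSubgroup) := by
  classical
  -- finiteness of indices
  have hKi : K.fixingSubgroup.index ≠ 0 := by
    have : Finite (GQ ⧸ K.fixingSubgroup) := finite_quot_of_open hK _ le_rfl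
    exact Subgroup.index_ne_zero_of_finite
  let W : Subgroup K.fixingSubgroup := H.fixingSubgroup.subgroupOf K.fixingSubgroup
  have hWi : W.index ≠ 0 := by
    have h2 : Finite (GQ ⧸ H.fixingSubgroup) := finite_quot_of_open hH _ le_rfl
    have h3 : (H.fixingSubgroup).FiniteIndex := Subgroup.finiteIndex_of_finite_quotient
    have h4 : (H.fixingSubgroup.subgroupOf K.fixingSubgroup).FiniteIndex := inferInstance
    exact h4.index_ne_zero
  let Q : ℕ := ℓ ^ (T + 2) * (K.fixingSubgroup.index * (W.index * N))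
  obtain ⟨M, hM, hT, hk⟩ := torsion ℓ hℓ T Q
  have hk' : Q ≤ Nat.card {x : (ZMod M)ˣ // x ^ ℓ = 1} := le_trans Nat.lt_two_pow_self.le hk
  have hMz : NeZero M := ⟨hM.ne'⟩
  obtain ⟨ζ, hζ⟩ : ∃ ζ : Qb, IsPrimitiveRoot ζ M := by
    have : NeZero (M : Qb) := ⟨by exact_mod_cast hM.ne'⟩
    exact HasEnoughRootsOfUnity.exists_primitiveRoot Qb M
  let S : Finset (ZMod M)ˣ := insert (-1) ((Finset.range (T + 1)).image fun p =>
    if h : p.Coprime M then ZMod.unitOfCoprime p h else 1)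
  have hS : S.card ≤ T + 2 := by
    refine (Finset.card_insert_le _ _).trans ?_
    have := Finset.card_image_le (s := Finset.range (T + 1)) (f := fun p =>
      if h : p.Coprime M then ZMod.unitOfCoprime p h else 1)
    rw [Finset.card_range] at this
    omega
  obtain ⟨B, hB1, hB2, hB3⟩ := idx hℓ.pos S
  have hBm : (-1 : (ZMod M)ˣ) ∈ B := hB2 _ (Finset.mem_insert_self _ _)
  have hBp : ∀ p (hp : p.Coprime M), p.Prime → p ≤ T → ZMod.unitOfCoprime p hp ∈ B := by
    intro p hp _ hpT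
    apply hB2
    refine Finset.mem_insert_of_mem (Finset.mem_image.2 ⟨p, Finset.mem_range.2 (by omega), ?_⟩)
    exact dif_pos hp
  let χ : GQ →* (ZMod M)ˣ := hζ.autToPow ℚ
  have hχ : Function.Surjective χ := chi_surj hζ
  have hLocB := hLoc M ζ hζ hT B hBm hBp
  let U0 : Subgroup K.fixingSubgroup := (B.comap χ).subgroupOf K.fixingSubgroup
  have hU0 : ∀ x : K.fixingSubgroup, x ∈ U0 ↔ χ (x : GQ) ∈ B := fun x => Iff.rfl
  have hidx : B.index ≤ K.fixingSubgroup.index * U0.index := by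
    have h1 : (B.comap χ).index = B.index := Subgroup.index_comap_of_surjective _ hχ
    have h2 : ((B.comap χ) ⊓ K.fixingSubgroup).index = U0.index * K.fixingSubgroup.index := by
      rw [← Subgroup.relIndex_mul_index (inf_le_right : (B.comap χ) ⊓ K.fixingSubgroup ≤ _),
        Subgroup.inf_relIndex_right]
      rfl
    have h3 : (B.comap χ).index ∣ ((B.comap χ) ⊓ K.fixingSubgroup).index :=
      Subgroup.index_dvd_of_le inf_le_left
    have h4 : ((B.comap χ) ⊓ K.fixingSubgroup).index ≠ 0 := by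
      have h5 : (B.comap χ).index ≠ 0 := by
        rw [h1]; exact Subgroup.index_ne_zero_of_finite
      exact Subgroup.index_inf_ne_zero h5 hKi
    rw [← h1, mul_comm, ← h2]
    exact Nat.le_of_dvd (Nat.pos_of_ne_zero h4) h3
  have hU0fin : U0.index ≠ 0 := by
    have h5 : (B.comap χ).index ≠ 0 := by
      rw [Subgroup.index_comap_of_surjective _ hχ]; exact Subgroup.index_ne_zero_of_finite
    have : (B.comap χ).FiniteIndex := ⟨h5⟩
    have h4 : U0.FiniteIndex := inferInstanceAs ((B.comap χ).subgroupOf K.fixingSubgroup).FiniteIndex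
    exact h4.index_ne_zero
  have hU0n : U0.Normal := by
    constructor
    intro x hx g
    rw [hU0] at hx ⊢
    simp only [Subgroup.coe_mul, Subgroup.coe_inv, map_mul, map_inv]
    rw [mul_comm (χ g), mul_inv_cancel_right]
    exact hx
  have hab : ∀ x y : K.fixingSubgroup, x * y * x⁻¹ * y⁻¹ ∈ U0 := by
    intro x y
    rw [hU0]
    simp only [Subgroup.coe_mul, Subgroup.coe_inv, map_mul, map_inv]
    rw [mul_comm (χ x), mul_inv_cancel_right, mul_inv_cancel]
    exact B.one_mem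
  have hexp : ∀ x : K.fixingSubgroup, x ^ ℓ ∈ U0 := by
    intro x
    rw [hU0]
    simp only [SubmonoidClass.coe_pow, map_pow]
    exact hB1 _
  have hfinU : U0.FiniteIndex := ⟨hU0fin⟩
  have hfin : Finite (K.fixingSubgroup ⧸ U0) := Subgroup.finite_quotient_of_finiteIndex
  obtain ⟨U, hU1, hU2, hU3⟩ := compl U0 hℓ hab hexp W hWi
  have hLoc' : ∀ g (hg : g ∈ K.fixingSubgroup), Loc g → (⟨g, hg⟩ : K.fixingSubgroup) ∈ U := by
    intro g hg h
    exact hU1 ((hU0 _).2 (hLocB g h))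
  obtain ⟨L, hL1, hL2, hL3⟩ := exists_field (nf_sup hK (nf_adjoin ζ))
    (U.map K.fixingSubgroup.subtype) (by
      intro g hg
      obtain ⟨hgK, hgζ⟩ := (mem_fix_sup K ζ g).1 hg
      refine ⟨⟨g, hgK⟩, hU1 ((hU0 _).2 ?_), rfl⟩
      have : χ g = 1 := by
        refine chi_eq_of hζ (n := 1) ?_ ?_
        · simp
        · rw [pow_one]; exact hgζ
      show χ g ∈ B
      rw [this]
      exact B.one_mem)
  have hsub : L.fixingSubgroup.subgroupOf K.fixingSubgroup = U := by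
    rw [hL2]
    ext x
    rw [Subgroup.mem_subgroupOf, Subgroup.mem_map]
    constructor
    · rintro ⟨y, hy, hxy⟩
      have : y = x := Subtype.ext hxy
      rwa [← this]
    · intro h
      exact ⟨x, h, rfl⟩
  refine ⟨L, hL1, ?_, ?_, ?_, ?_, ?_, ?_⟩
  · rw [fixing_le_iff, hL2]
    rintro g ⟨x, _, rfl⟩
    exact x.2
  · intro x y
    rw [hsub]
    exact hU1 (hab x y)
  · intro x
    rw [hsub]
    exact hU1 (hexp x)
  · rw [hsub]
    have h1 : ℓ ^ (T + 2) * (K.fixingSubgroup.index * (W.index * N)) ≤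
        ℓ ^ (T + 2) * (K.fixingSubgroup.index * (W.index * U.index)) := by
      calc ℓ ^ (T + 2) * (K.fixingSubgroup.index * (W.index * N))
          ≤ Nat.card {x : (ZMod M)ˣ // x ^ ℓ = 1} := hk'
        _ ≤ ℓ ^ S.card * B.index := hB3
        _ ≤ ℓ ^ (T + 2) * B.index := Nat.mul_le_mul_right _ (Nat.pow_le_pow_right hℓ.pos hS)
        _ ≤ ℓ ^ (T + 2) * (K.fixingSubgroup.index * U0.index) := Nat.mul_le_mul_left _ hidx
        _ ≤ _ := Nat.mul_le_mul_left _ (Nat.mul_le_mul_left _ hU3)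
    have h2 := Nat.le_of_mul_le_mul_left h1 (pow_pos hℓ.pos _)
    have h3 := Nat.le_of_mul_le_mul_left h2 (Nat.pos_of_ne_zero hKi)
    exact Nat.le_of_mul_le_mul_left h3 (Nat.pos_of_ne_zero hWi)
  · intro g hg h
    rw [hL2]
    exact ⟨⟨g, hg⟩, hLoc' g hg h, rfl⟩
  · intro g
    obtain ⟨u, hu, w, hw, rfl⟩ := hU2 g
    refine ⟨u, by rw [hsub]; exact hu, ?_⟩
    rw [inv_mul_cancel_left]
    exact hw

end Pool.Agent.TH139
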