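import Pool.Agent.TH139.Cyc

open NumberField Polynomial
open Pool.Agent.TH965.St

namespace Pool.Agent.TH139

/-- `g` is in the decomposition group of a place of the algebraic closure above `p`. -/
def IsDec (p : ℕ) (g : GQ) : Prop :=
  ∃ V : ValuationSubring Qb, (p : Qb)⁻¹ ∉ V ∧ ∀ x, g x ∈ V ↔ x ∈ V

theorem fix_prime {k : Type} [Field k] {p : ℕ} [Fact p.Prime] [CharP k p] (s : k →+* k) {x : k}
    (hx : x ^ p = x) : s x = x := by
  have h1 : x ∈ (⊥ : Subfield k) := (Subfield.mem_bot_iff_pow_eq_self k p).2 hx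
  have h2 : (⊥ : Subfield k) ≤ s.eqLocusField (RingHom.id k) := bot_le
  exact h2 h1

theorem field_part {k : Type} [Field k] {p : ℕ} [hp : Fact p.Prime] [CharP k p] (s : k →+* k)
    {M : ℕ} [NeZero M] (hpM : p.Coprime M) {z : k} (hz : IsPrimitiveRoot z M) (a : (ZMod M)ˣ)
    (ha : s z = z ^ (a : ZMod M).val) : a ∈ Subgroup.zpowers (ZMod.unitOfCoprime p hpM) := by
  classical
  set u := ZMod.unitOfCoprime p hpM with hu
  let F : (ZMod M)ˣ → k := fun t => z ^ (t : ZMod M).val
  have hF : ∀ (t : (ZMod M)ˣ) (n : ℕ), F t ^ n = z ^ ((t : ZMod M) * (n : ZMod M)).val := by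
    intro t n
    show (z ^ (t : ZMod M).val) ^ n = _
    rw [← pow_mul]
    have h1 : z ^ ((t : ZMod M).val * n) = z ^ (((t : ZMod M).val * n) % M) := by
      conv_lhs => rw [← Nat.mod_add_div ((t : ZMod M).val * n) M]
      rw [pow_add, pow_mul, hz.pow_eq_one, one_pow, mul_one]
    rw [h1]
    congr 1
    rw [← ZMod.val_natCast, Nat.cast_mul, ZMod.natCast_zmod_val]
  have hFp : ∀ t, F t ^ p = F (t * u) := by
    intro t
    rw [hF]
    show _ = z ^ (((t * u : (ZMod M)ˣ) : ZMod M)).val
    rw [Units.val_mul, hu, ZMod.coe_unitOfCoprime]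
  let H : Finset (ZMod M)ˣ := Finset.univ.filter fun t => t ∈ Subgroup.zpowers u
  let f : k[X] := ∏ t ∈ H, (X - C (F t))
  have hf1 : f.map (frobenius k p) = f := by
    show (∏ t ∈ H, (X - C (F t))).map (frobenius k p) = ∏ t ∈ H, (X - C (F t))
    rw [Polynomial.map_prod]
    refine Finset.prod_nbij' (fun t => t * u) (fun t => t * u⁻¹) ?_ ?_ ?_ ?_ ?_
    · intro t ht
      have ht' := (Finset.mem_filter.1 ht).2
      exact Finset.mem_filter.2 ⟨Finset.mem_univ _,
        Subgroup.mul_mem _ ht' (Subgroup.mem_zpowers u)⟩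
    · intro t ht
      have ht' := (Finset.mem_filter.1 ht).2
      exact Finset.mem_filter.2 ⟨Finset.mem_univ _,
        Subgroup.mul_mem _ ht' (Subgroup.inv_mem _ (Subgroup.mem_zpowers u))⟩
    · intro t _; simp
    · intro t _; simp
    · intro t _
      rw [Polynomial.map_sub, Polynomial.map_X, Polynomial.map_C, frobenius_def, hFp]
  have hf2 : f.map s = f := by
    ext n
    rw [Polynomial.coeff_map]
    apply fix_prime (p := p)
    have h1 := congrArg (fun q : k[X] => q.coeff n) hf1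
    simp only [Polynomial.coeff_map, frobenius_def] at h1
    exact h1
  have hz1 : F 1 = z := by
    have h1 := hF 1 1
    rw [pow_one] at h1
    by_cases hM : M = 1
    · subst hM
      have : z = 1 := by rw [← pow_one z]; exact hz.pow_eq_one
      show z ^ ((1 : (ZMod 1)ˣ) : ZMod 1).val = z
      rw [this, one_pow]
    · have : Fact (1 < M) := ⟨by have := NeZero.pos M; omega⟩
      show z ^ ((1 : (ZMod M)ˣ) : ZMod M).val = z
      rw [Units.val_one, ZMod.val_one, pow_one]
  have h1H : (1 : (ZMod M)ˣ) ∈ H := Finset.mem_filter.2 ⟨Finset.mem_univ _, Subgroup.one_mem _⟩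
  have hf3 : f.eval z = 0 := by
    show (∏ t ∈ H, (X - C (F t))).eval z = 0
    rw [Polynomial.eval_prod]
    refine Finset.prod_eq_zero h1H ?_
    rw [Polynomial.eval_sub, Polynomial.eval_X, Polynomial.eval_C, hz1, sub_self]
  have hf4 : f.eval (s z) = 0 := by
    have h1 := Polynomial.eval_map_apply s z (p := f)
    rw [hf2, hf3, map_zero] at h1
    exact h1
  have hf5 : (∏ t ∈ H, (X - C (F t))).eval (s z) = 0 := hf4
  rw [Polynomial.eval_prod, Finset.prod_eq_zero_iff] at hf5
  obtain ⟨t, ht, h5⟩ := hf5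
  rw [Polynomial.eval_sub, Polynomial.eval_X, Polynomial.eval_C, sub_eq_zero, ha] at h5
  have h6 := hz.pow_inj (ZMod.val_lt _) (ZMod.val_lt _) h5
  have h7 : a = t := Units.ext (ZMod.val_injective M h6)
  rw [h7]
  exact (Finset.mem_filter.1 ht).2

theorem chi_dec {M : ℕ} [NeZero M] {ζ : Qb} (hζ : IsPrimitiveRoot ζ M) {p : ℕ} (hp : p.Prime)
    (hpM : p.Coprime M) {g : GQ} (hg : IsDec p g) :
    hζ.autToPow ℚ g ∈ Subgroup.zpowers (ZMod.unitOfCoprime p hpM) := by
  obtain ⟨V, hV, hg⟩ := hg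
  have hpf : Fact p.Prime := ⟨hp⟩
  have hcp : CharP (IsLocalRing.ResidueField V) p := by
    rw [CharP.charP_iff_prime_eq_zero hp]
    have h1 : (p : V) ∈ IsLocalRing.maximalIdeal V := by
      rw [IsLocalRing.mem_maximalIdeal, mem_nonunits_iff]
      intro hu
      obtain ⟨v, hv⟩ := hu.exists_right_inv
      apply hV
      have h2 : (p : Qb) * (v : Qb) = 1 := by
        have := congrArg (Subtype.val) hv
        push_cast at this
        exact this
      rw [← eq_inv_of_mul_eq_one_right h2]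
      exact v.2
    have h3 := (IsLocalRing.residue_eq_zero_iff (p : V)).2 h1
    rw [map_natCast] at h3
    exact h3
  -- the root of unity in `V`
  have hζV : ζ ∈ V := by
    rcases V.mem_or_inv_mem ζ with h | h
    · exact h
    · have h0 : ζ ≠ 0 := hζ.ne_zero (NeZero.ne M)
      have h1 : ζ = ζ⁻¹ ^ (M - 1) := by
        have h2 : ζ ^ (M - 1) * ζ = 1 := by
          rw [← pow_succ, Nat.sub_add_cancel (NeZero.pos M), hζ.pow_eq_one]
        rw [inv_pow]
        exact eq_inv_of_mul_eq_one_right h2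
      rw [h1]
      exact V.pow_mem h _
  let z : V := ⟨ζ, hζV⟩
  have hz : IsPrimitiveRoot z M := by
    refine IsPrimitiveRoot.of_map_of_injective (f := V.subtype) ?_ Subtype.val_injective
    exact hζ
  have hMk : NeZero (M : IsLocalRing.ResidueField V) := by
    constructor
    intro h
    rw [CharP.cast_eq_zero_iff _ p] at h
    exact (hp.coprime_iff_not_dvd.1 hpM) h
  have hzk : IsPrimitiveRoot (IsLocalRing.residue V z) M := by
    rw [← Polynomial.isRoot_cyclotomic_iff]
    have h1 := hz.isRoot_cyclotomic (NeZero.pos M)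
    have h2 := h1.map (f := IsLocalRing.residue V)
    rwa [Polynomial.map_cyclotomic] at h2
  let gV : V →+* V :=
    { toFun := fun x => ⟨g x, (hg x).2 x.2⟩
      map_one' := Subtype.ext (map_one g)
      map_mul' := fun x y => Subtype.ext (map_mul g _ _)
      map_zero' := Subtype.ext (map_zero g)
      map_add' := fun x y => Subtype.ext (map_add g _ _) }
  have hloc : IsLocalHom gV := by
    constructor
    intro x hx
    obtain ⟨y, hy⟩ := hx.exists_right_inv
    have h1 : g (x : Qb) * (y : Qb) = 1 := congrArg Subtype.val hy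
    have h2 : g ((x : Qb)⁻¹) ∈ V := by
      rw [map_inv₀, ← eq_inv_of_mul_eq_one_right h1]
      exact y.2
    have h3 : (x : Qb)⁻¹ ∈ V := (hg _).1 h2
    have h4 : (x : Qb) ≠ 0 := by
      intro h0
      rw [h0, map_zero, zero_mul] at h1
      exact zero_ne_one h1
    exact IsUnit.of_mul_eq_one ⟨_, h3⟩ (Subtype.ext (mul_inv_cancel₀ h4))
  let s : IsLocalRing.ResidueField V →+* IsLocalRing.ResidueField V := IsLocalRing.ResidueField.map gV
  refine field_part s hpM hzk _ ?_
  show IsLocalRing.ResidueField.map gV (IsLocalRing.residue V z) = _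
  rw [IsLocalRing.ResidueField.map_residue, ← map_pow]
  congr 1
  apply Subtype.ext
  show g ζ = ζ ^ _
  exact (hζ.autToPow_spec ℚ g).symm

/-- The local condition: complex conjugations and decomposition groups at the primes up to `T`. -/
theorem loc_ok (T : ℕ) : ∀ (M : ℕ) [NeZero M] (ζ : Qb) (hζ : IsPrimitiveRoot ζ M),
      (∀ p, p.Prime → p ≤ T → p.Coprime M) → ∀ B : Subgroup (ZMod M)ˣ, -1 ∈ B →
      (∀ p (hp : p.Coprime M), p.Prime → p ≤ T → ZMod.unitOfCoprime p hp ∈ B) →
      ∀ g, (IsCC g ∨ ∃ p, p.Prime ∧ p ≤ T ∧ IsDec p g) → hζ.autToPow ℚ g ∈ B := by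
  intro M _ ζ hζ hT B h1 h2 g hg
  rcases hg with hg | ⟨p, hp, hpT, hg⟩
  · rw [chi_cc hζ hg]
    exact h1
  · have h3 := chi_dec hζ hp (hT p hp hpT) hg
    refine (Subgroup.zpowers_le.2 ?_) h3
    exact h2 p _ hp hpT

end Pool.Agent.TH139
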