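import Pool.Agent.TH965.St.Short

open NumberField
open Pool.Agent.TH965.Stk

namespace Pool.Agent.TH139.Ab

/-- Restriction of a linear character of `K` to the extension field `K'`. -/
noncomputable def res {K K' : SubQ} (ψ : LinChar K) (h : Incl K K') : LinChar K' where
  hom := ψ.hom.comp (Subgroup.inclusion (show G K' ≤ G K from
    IntermediateField.fixingSubgroup_le h))
  smooth := by
    obtain ⟨L, hL, h1⟩ := ψ.smooth
    exact ⟨L, hL, fun g hg => h1 _ hg⟩

/-- `c` is the complex conjugation of the embedding `τ`. -/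
def IsCCof (τ : AlgebraicClosure ℚ →+* ℂ) (c : GQ) : Prop :=
  ∀ x, τ (c.toAut x) = (starRingEnd ℂ) (τ x)

/-- The infinite place of `K` induced by the embedding `τ`. -/
noncomputable def place (K : SubQ) (τ : AlgebraicClosure ℚ →+* ℂ) : InfinitePlace K.toIF :=
  InfinitePlace.mk (τ.comp (algebraMap K.toIF (AlgebraicClosure ℚ)))

/-- The number of infinite places `w` of `K` such that `ψ(c) = 1` for every complex conjugation
`c` in `G K` of an embedding inducing `w`. -/
noncomputable def ord (K : SubQ) (ψ : LinChar K) : ℕ :=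
  Nat.card {w : InfinitePlace K.toIF // ∀ (τ : AlgebraicClosure ℚ →+* ℂ) (c : G K),
    place K τ = w → IsCCof τ (c : GQ) → ψ.hom c = 1}

/-- `g` lies in the decomposition group of a place of the algebraic closure above `p`. -/
def IsDec (p : ℕ) (g : GQ) : Prop :=
  ∃ V : ValuationSubring (AlgebraicClosure ℚ), (p : AlgebraicClosure ℚ)⁻¹ ∉ V ∧
    ∀ x, g.toAut x ∈ V ↔ x ∈ V

/-- `K'` is a number field, abelian of exponent dividing `ℓ` and of degree `ℓ ^ m` over `K`, in
which the infinite places of `K` and the primes of `K` above the rational primes up to `T` split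
completely, and which is linearly disjoint from `H` over `K`. -/
structure IsNice (T ℓ m : ℕ) (K H K' : SubQ) : Prop where
  nf : IsNF K'
  incl : Incl K K'
  abelian : ∀ x ∈ G K, ∀ y ∈ G K, x * y * x⁻¹ * y⁻¹ ∈ G K'
  exponent : ∀ x ∈ G K, x ^ ℓ ∈ G K'
  degree : (G K').relIndex (G K) = ℓ ^ m
  infinite : ∀ c ∈ G K, IsCC c → c ∈ G K'
  finite : ∀ p, p.Prime → p ≤ T → ∀ g ∈ G K, IsDec p g → g ∈ G K'
  disjoint : ∀ g ∈ G K, ∃ g' ∈ G K', g'⁻¹ * g ∈ G H

end Pool.Agent.TH139.Ab
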