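import Mathlib

namespace Pool.Agent.TH139

/-- In a nontrivial finite group of prime exponent `ℓ` the number of subgroups of order `ℓ` is
congruent to one modulo `ℓ`. -/
theorem card_sub {Q : Type} [Group Q] [Finite Q] {ℓ : ℕ} (hℓ : ℓ.Prime)
    (hexp : ∀ x : Q, x ^ ℓ = 1) (hQ : Nontrivial Q) :
    ∃ c : ℕ, Nat.card {C : Subgroup Q // Nat.card C = ℓ} = 1 + ℓ * c := by
  classical
  have : Fintype Q := Fintype.ofFinite Q
  have : Fintype (Subgroup Q) := Fintype.ofFinite _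
  have hF : Fact ℓ.Prime := ⟨hℓ⟩
  have key : ∀ x : Q, x ≠ 1 → ∀ C : Subgroup Q, Nat.card C = ℓ →
      (x ∈ C ↔ C = Subgroup.zpowers x) := by
    intro x hx C hC
    constructor
    · intro hxC
      symm
      apply Subgroup.eq_of_le_of_card_ge
      · exact (Subgroup.zpowers_le).2 hxC
      · rw [hC, Nat.card_zpowers, orderOf_eq_prime (hexp x) hx]
    · intro h
      rw [h]
      exact Subgroup.mem_zpowers x
  set S : Finset (Subgroup Q) := Finset.univ.filter fun C => Nat.card C = ℓ with hS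
  have hcard : Nat.card {C : Subgroup Q // Nat.card C = ℓ} = S.card := by
    rw [Nat.card_eq_fintype_card, Fintype.card_subtype]
  have h1 : ∑ C ∈ S, ∑ x : Q, (if x ∈ C ∧ x ≠ 1 then 1 else 0 : ℕ) =
      ∑ x : Q, ∑ C ∈ S, (if x ∈ C ∧ x ≠ 1 then 1 else 0 : ℕ) := Finset.sum_comm
  have h2 : ∀ C ∈ S, ∑ x : Q, (if x ∈ C ∧ x ≠ 1 then 1 else 0 : ℕ) = ℓ - 1 := by
    intro C hC
    have hC' : Nat.card C = ℓ := (Finset.mem_filter.1 hC).2
    rw [← Finset.card_filter]
    have e : (Finset.univ.filter fun x : Q => x ∈ C ∧ x ≠ 1) =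
        (Finset.univ.filter fun x : Q => x ∈ C).erase 1 := by
      ext x
      simp [and_comm]
    rw [e, Finset.card_erase_of_mem (by simp [C.one_mem])]
    congr 1
    rw [← hC', Nat.card_eq_fintype_card, Fintype.card_subtype]
  have h3 : ∀ x : Q, ∑ C ∈ S, (if x ∈ C ∧ x ≠ 1 then 1 else 0 : ℕ) = if x ≠ 1 then 1 else 0 := by
    intro x
    by_cases hx : x = 1
    · simp [hx]
    · rw [if_pos hx]
      have hz : Subgroup.zpowers x ∈ S := by
        rw [hS, Finset.mem_filter]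
        exact ⟨Finset.mem_univ _, by rw [Nat.card_zpowers, orderOf_eq_prime (hexp x) hx]⟩
      rw [Finset.sum_eq_single_of_mem _ hz]
      · rw [if_pos ⟨Subgroup.mem_zpowers x, hx⟩]
      · intro C hC hne
        rw [if_neg]
        rintro ⟨h, _⟩
        exact hne ((key x hx C (Finset.mem_filter.1 hC).2).1 h)
  rw [Finset.sum_congr rfl h2, Finset.sum_congr rfl (fun x _ => h3 x), Finset.sum_const,
    ← Finset.card_filter] at h1
  have h4 : (Finset.univ.filter fun x : Q => x ≠ 1).card = Fintype.card Q - 1 := by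
    have e : (Finset.univ.filter fun x : Q => x ≠ 1) = Finset.univ.erase 1 := by
      ext x; simp
    rw [e, Finset.card_erase_of_mem (Finset.mem_univ _), Finset.card_univ]
  rw [h4, smul_eq_mul] at h1
  obtain ⟨x, hx⟩ := exists_ne (1 : Q)
  have h5 : ℓ ∣ Fintype.card Q := by
    rw [← orderOf_eq_prime (hexp x) hx]
    exact orderOf_dvd_card
  have hpos : 0 < Fintype.card Q := Fintype.card_pos
  have hl : 1 < ℓ := hℓ.one_lt
  rw [hcard]
  have hs1 : 1 ≤ S.card := by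
    rcases Nat.eq_zero_or_pos S.card with h0 | h0
    · rw [h0, zero_mul] at h1
      obtain ⟨k, hk⟩ := h5
      have : 1 ≤ k := by
        rcases Nat.eq_zero_or_pos k with hk0 | hk0
        · rw [hk0, mul_zero] at hk; omega
        · exact hk0
      have : ℓ ≤ Fintype.card Q := by rw [hk]; exact Nat.le_mul_of_pos_right _ this
      omega
    · exact h0
  obtain ⟨k, hk⟩ := h5
  have h6 : ((S.card : ℤ) - 1) * ((ℓ : ℤ) - 1) = (ℓ : ℤ) * ((k : ℤ) - 1) := by
    have h7 : ((S.card * (ℓ - 1) : ℕ) : ℤ) = ((Fintype.card Q - 1 : ℕ) : ℤ) := by rw [h1]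
    rw [Nat.cast_sub (by omega), Nat.cast_mul, Nat.cast_sub (by omega), hk] at h7
    push_cast at h7
    linear_combination h7
  have h8 : (ℓ : ℤ) ∣ (S.card : ℤ) - 1 := by
    have h9 : (ℓ : ℤ) ∣ ((S.card : ℤ) - 1) * ((ℓ : ℤ) - 1) := ⟨_, h6⟩
    have h10 : IsCoprime (ℓ : ℤ) ((ℓ : ℤ) - 1) := ⟨1, -1, by ring⟩
    exact h10.dvd_of_dvd_mul_right h9
  obtain ⟨c, hc⟩ := h8
  have hc0 : 0 ≤ c := by
    by_contra hneg
    push Not at hneg
    have : (S.card : ℤ) - 1 < 0 := by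
      rw [hc]
      exact mul_neg_of_pos_of_neg (by exact_mod_cast hℓ.pos) hneg
    have : (1 : ℤ) ≤ S.card := by exact_mod_cast hs1
    omega
  refine ⟨c.toNat, ?_⟩
  zify
  rw [Int.toNat_of_nonneg hc0]
  linarith

/-- the identity of permutation characters of an elementary abelian quotient -/
theorem identity {Γ : Type} [Group Γ] (U : Subgroup Γ) [hU : U.Normal] [hfin : Finite (Γ ⧸ U)]
    {ℓ : ℕ} (hℓ : ℓ.Prime) (hab : ∀ x y : Γ, x * y * x⁻¹ * y⁻¹ ∈ U) (hexp : ∀ x : Γ, x ^ ℓ ∈ U)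
    (hne : U.index ≠ 1) :
    ∃ (ι : Type) (_ : Fintype ι) (H : ι → Subgroup Γ) (c n : ℕ), (∃ a, n = ℓ ^ a) ∧
      ℓ * n = U.index ∧ (∀ i, U ≤ H i ∧ (H i).Normal ∧ (H i).index = n) ∧
      ∀ g : Γ, (∀ _ : g ∈ U, Nat.card ι * n = n + c * (ℓ * n)) ∧
        (g ∉ U → ∃! i, g ∈ H i) := by
  classical
  have hF : Fact ℓ.Prime := ⟨hℓ⟩
  have hexp' : ∀ x : Γ ⧸ U, x ^ ℓ = 1 := by
    intro x
    obtain ⟨x, rfl⟩ := QuotientGroup.mk_surjective x
    rw [← QuotientGroup.mk_pow]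
    exact (QuotientGroup.eq_one_iff _).2 (hexp x)
  have hcomm : ∀ x y : Γ ⧸ U, x * y = y * x := by
    intro x y
    obtain ⟨x, rfl⟩ := QuotientGroup.mk_surjective x
    obtain ⟨y, rfl⟩ := QuotientGroup.mk_surjective y
    have h := (QuotientGroup.eq_one_iff _).2 (hab x y)
    rw [QuotientGroup.mk_mul, QuotientGroup.mk_mul, QuotientGroup.mk_mul, QuotientGroup.mk_inv,
      QuotientGroup.mk_inv, mul_inv_eq_one, mul_inv_eq_iff_eq_mul] at h
    exact h
  have hnt : Nontrivial (Γ ⧸ U) := by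
    rw [← Finite.one_lt_card_iff_nontrivial]
    have h1 : Nat.card (Γ ⧸ U) = U.index := rfl
    have h0 : 0 < Nat.card (Γ ⧸ U) := Nat.card_pos
    omega
  obtain ⟨c, hc⟩ := card_sub hℓ hexp' hnt
  have : Finite {C : Subgroup (Γ ⧸ U) // Nat.card C = ℓ} := inferInstance
  have : Fintype {C : Subgroup (Γ ⧸ U) // Nat.card C = ℓ} := Fintype.ofFinite _
  have hpg : IsPGroup ℓ (Γ ⧸ U) := fun x => ⟨1, by rw [pow_one]; exact hexp' x⟩
  obtain ⟨k, hk⟩ := IsPGroup.iff_card.1 hpg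
  have hk1 : 1 ≤ k := by
    rcases Nat.eq_zero_or_pos k with h0 | h0
    · rw [h0, pow_zero] at hk
      exact absurd hk hne
    · exact h0
  have hidx : ℓ * ℓ ^ (k - 1) = U.index := by
    show _ = Nat.card (Γ ⧸ U)
    rw [hk, ← pow_succ']
    congr 1
    omega
  refine ⟨{C : Subgroup (Γ ⧸ U) // Nat.card C = ℓ}, inferInstance,
    fun C => (C : Subgroup (Γ ⧸ U)).comap (QuotientGroup.mk' U), c, ℓ ^ (k - 1), ⟨_, rfl⟩, hidx,
    ?_, ?_⟩
  · rintro ⟨C, hC⟩
    have hCn : C.Normal := ⟨fun x hx g => by rw [hcomm g x, mul_inv_cancel_right]; exact hx⟩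
    refine ⟨?_, Subgroup.Normal.comap hCn _, ?_⟩
    · intro u hu
      refine Subgroup.mem_comap.2 ?_
      have : QuotientGroup.mk' U u = 1 := (QuotientGroup.eq_one_iff u).2 hu
      rw [this]
      exact C.one_mem
    · rw [Subgroup.index_comap_of_surjective _ (QuotientGroup.mk'_surjective U)]
      have h1 := C.card_mul_index
      rw [hC] at h1
      have h2 : Nat.card (Γ ⧸ U) = ℓ * ℓ ^ (k - 1) := hidx.symm
      rw [h2] at h1
      exact Nat.eq_of_mul_eq_mul_left hℓ.pos h1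
  · intro g
    constructor
    · intro _
      rw [hc]
      ring
    · intro hg
      have hx : (QuotientGroup.mk' U g) ≠ 1 := fun h => hg ((QuotientGroup.eq_one_iff g).1 h)
      have hz : Nat.card (Subgroup.zpowers (QuotientGroup.mk' U g)) = ℓ := by
        rw [Nat.card_zpowers, orderOf_eq_prime (hexp' _) hx]
      refine ⟨⟨Subgroup.zpowers (QuotientGroup.mk' U g), hz⟩, ?_, ?_⟩
      · exact Subgroup.mem_comap.2 (Subgroup.mem_zpowers _)
      · rintro ⟨C, hC⟩ h
        apply Subtype.ext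
        symm
        apply Subgroup.eq_of_le_of_card_ge
        · exact (Subgroup.zpowers_le).2 (Subgroup.mem_comap.1 h)
        · rw [hC, hz]

end Pool.Agent.TH139
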