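import Pool.Agent.TH965.St.Transfer
import Pool.Agent.TH139.Grp

open NumberField
open Pool.Agent.TH965.St

namespace Pool.Agent.TH139

theorem fin_quot {K K' : IntermediateField ℚ Qb} (hK' : NumberField K') :
    Finite (K.fixingSubgroup ⧸ (K'.fixingSubgroup.subgroupOf K.fixingSubgroup)) := by
  have h1 : Finite (GQ ⧸ K'.fixingSubgroup) := finite_quot_of_open hK' _ le_rfl
  have h2 : (K'.fixingSubgroup).FiniteIndex := Subgroup.finiteIndex_of_finite_quotient
  have h3 : (K'.fixingSubgroup.subgroupOf K.fixingSubgroup).FiniteIndex := inferInstance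
  exact Subgroup.finite_quotient_of_finiteIndex

open Classical in
/-- permutation character for a normal subextension -/
theorem perm_normal {K K' : IntermediateField ℚ Qb} (hK' : NumberField K')
    (hn : (K'.fixingSubgroup.subgroupOf K.fixingSubgroup).Normal) (g : K.fixingSubgroup) :
    ind K K' (LinChar.one : LinChar K').fn (g : GQ) =
      if g ∈ K'.fixingSubgroup.subgroupOf K.fixingSubgroup then
        ((K'.fixingSubgroup.subgroupOf K.fixingSubgroup).index : ℂ) else 0 := by
  have hf := fin_quot (K := K) hK'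
  have : Fintype (K.fixingSubgroup ⧸ (K'.fixingSubgroup.subgroupOf K.fixingSubgroup)) :=
    Fintype.ofFinite _
  have key : ∀ q : K.fixingSubgroup, ((q : GQ)⁻¹ * g * (q : GQ)) ∈ K'.fixingSubgroup ↔
      g ∈ K'.fixingSubgroup.subgroupOf K.fixingSubgroup := by
    intro q
    have h1 := hn.mem_comm_iff (a := q⁻¹ * g) (b := q)
    have e : q * (q⁻¹ * g) = g := by group
    rw [e] at h1
    rw [← h1, Subgroup.mem_subgroupOf]
    rfl
  unfold ind
  rw [finsum_eq_sum_of_fintype]
  split_ifs with h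
  · have h2 : ∀ q : K.fixingSubgroup ⧸ (K'.fixingSubgroup.subgroupOf K.fixingSubgroup),
        (LinChar.one : LinChar K').fn ((q.out : GQ)⁻¹ * g * (q.out : GQ)) = 1 :=
      fun q => LinChar.one_fn _ ((key q.out).2 h)
    rw [Finset.sum_congr rfl (fun q _ => h2 q), Finset.sum_const, nsmul_eq_mul, mul_one,
      Finset.card_univ, ← Nat.card_eq_fintype_card]
    rfl
  · refine Finset.sum_eq_zero fun q _ => ?_
    exact LinChar.fn_of_not_mem _ fun h' => h ((key q.out).1 h')

theorem nsmul_D {M : Type} [CommGroup M] (A : Family M) {K : IntermediateField ℚ Qb}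
    (hK : NumberField K) {f : GQ → ℂ} (hf : f ∈ Virt K) (n : ℕ) :
    A.D K (n • f) = A.D K f ^ n := by
  have h := A.sum hK (Finset.range n) (fun _ => f) (fun _ => hf)
  rwa [Finset.sum_const, Finset.prod_const, Finset.card_range] at h

theorem subgroupOf_map {Γ : Type} [Group Γ] (P : Subgroup Γ) (H : Subgroup P) :
    (H.map P.subtype).subgroupOf P = H := by
  ext x
  rw [Subgroup.mem_subgroupOf, Subgroup.mem_map]
  constructor
  · rintro ⟨y, hy, hxy⟩
    have : y = x := Subtype.ext hxy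
    rwa [← this]
  · intro h
    exact ⟨x, h, rfl⟩

/-- The main step: elementary abelian extensions. -/
theorem ab_step {K L : IntermediateField ℚ Qb}
    (hK : NumberField K) (hL : NumberField L) (hKL : K ≤ L) {ℓ : ℕ}
    (hℓ : ℓ.Prime) (hn : (L.fixingSubgroup.subgroupOf K.fixingSubgroup).Normal)
    (hab : ∀ x y : K.fixingSubgroup, x * y * x⁻¹ * y⁻¹ ∈ L.fixingSubgroup.subgroupOf K.fixingSubgroup)
    (hexp : ∀ x : K.fixingSubgroup, x ^ ℓ ∈ L.fixingSubgroup.subgroupOf K.fixingSubgroup)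
    (hne : (L.fixingSubgroup.subgroupOf K.fixingSubgroup).index ≠ 1) :
    ∃ (ι : Type) (_ : Fintype ι) (F : ι → IntermediateField ℚ Qb) (hKF : ∀ i, K ≤ F i)
      (c a : ℕ), (∀ i, NumberField (F i) ∧ F i ≤ L ∧
        (F i).fixingSubgroup.relIndex K.fixingSubgroup = ℓ ^ a) ∧
      ℓ ^ (a + 1) = L.fixingSubgroup.relIndex K.fixingSubgroup ∧
      ∀ (ψ : LinChar K) (M : Type) [CommGroup M] (A : Family M),
        A.D K ψ.fn ^ (ℓ ^ a) * A.D L (ψ.res hKL).fn ^ c = ∏ i, A.D (F i) (ψ.res (hKF i)).fn := by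
  classical
  have hfin := fin_quot (K := K) hL
  obtain ⟨ι, hι, S, c, n, ⟨a, ha⟩, hidx, hS, hg⟩ := identity
    (L.fixingSubgroup.subgroupOf K.fixingSubgroup) hℓ hab hexp hne
  have hF : ∀ i, ∃ F : IntermediateField ℚ Qb, NumberField F ∧
      F.fixingSubgroup = (S i).map K.fixingSubgroup.subtype ∧ F ≤ L := by
    intro i
    apply exists_field hL
    intro g hgL
    have hgK : g ∈ K.fixingSubgroup := IntermediateField.fixingSubgroup_le hKL hgL
    exact ⟨⟨g, hgK⟩, (hS i).1 (Subgroup.mem_subgroupOf.2 hgL), rfl⟩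
  choose F hF1 hF2 hF3 using hF
  have hKF : ∀ i, K ≤ F i := by
    intro i
    rw [fixing_le_iff, hF2]
    rintro g ⟨x, _, rfl⟩
    exact x.2
  have hsub : ∀ i, (F i).fixingSubgroup.subgroupOf K.fixingSubgroup = S i := by
    intro i
    rw [hF2]
    exact subgroupOf_map _ _
  refine ⟨ι, hι, F, hKF, c, a, fun i => ⟨hF1 i, hF3 i, ?_⟩, ?_, ?_⟩
  · show ((F i).fixingSubgroup.subgroupOf K.fixingSubgroup).index = ℓ ^ a
    rw [hsub, (hS i).2.2, ha]
  · show ℓ ^ (a + 1) = (L.fixingSubgroup.subgroupOf K.fixingSubgroup).index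
    rw [← hidx, ha, pow_succ']
  intro ψ M _ A
  have key : n • ψ.fn + c • ind K L (ψ.res hKL).fn = ∑ i, ind K (F i) (ψ.res (hKF i)).fn := by
    funext g
    rw [Pi.add_apply, Pi.smul_apply, Pi.smul_apply, Finset.sum_apply, nsmul_eq_mul, nsmul_eq_mul]
    by_cases hgK : g ∈ K.fixingSubgroup
    · rw [ind_res hKL]
      have e1 : ∀ i, ind K (F i) (ψ.res (hKF i)).fn g =
          ψ.fn g * (if (⟨g, hgK⟩ : K.fixingSubgroup) ∈ S i then (n : ℂ) else 0) := by
        intro i
        rw [ind_res (hKF i)]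
        have h2 := perm_normal (hF1 i) (by rw [hsub]; exact (hS i).2.1) ⟨g, hgK⟩
        rw [hsub, (hS i).2.2] at h2
        rw [← h2]
      rw [Finset.sum_congr rfl (fun i _ => e1 i), ← Finset.mul_sum]
      have h3 := perm_normal (K := K) hL hn ⟨g, hgK⟩
      rw [← hidx] at h3
      change ind K L (LinChar.one : LinChar L).fn g = _ at h3
      rw [h3]
      by_cases hU : (⟨g, hgK⟩ : K.fixingSubgroup) ∈ L.fixingSubgroup.subgroupOf K.fixingSubgroup
      · rw [if_pos hU]
        have e2 : ∀ i, (⟨g, hgK⟩ : K.fixingSubgroup) ∈ S i := fun i => (hS i).1 hU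
        rw [Finset.sum_congr rfl (fun i _ => if_pos (e2 i)), Finset.sum_const, nsmul_eq_mul,
          Finset.card_univ]
        have h4 := (hg ⟨g, hgK⟩).1 hU
        rw [Nat.card_eq_fintype_card] at h4
        have h5 : ((Fintype.card ι * n : ℕ) : ℂ) = ((n + c * (ℓ * n) : ℕ) : ℂ) := by rw [h4]
        push_cast at h5 ⊢
        rw [h5]
        ring
      · rw [if_neg hU]
        obtain ⟨i, hi1, hi2⟩ := (hg ⟨g, hgK⟩).2 hU
        rw [Finset.sum_eq_single_of_mem i (Finset.mem_univ _), if_pos hi1]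
        · ring
        · intro j _ hj
          rw [if_neg]
          exact fun h => hj (hi2 j h)
    · rw [LinChar.fn_of_not_mem _ hgK, ind_of_not_mem hKL _ hgK]
      rw [Finset.sum_eq_zero (fun i _ => ind_of_not_mem (hKF i) _ hgK)]
      ring
  have hv1 := fn_mem_virt hK ψ
  have hv2 : ind K L (ψ.res hKL).fn ∈ Virt K := ind_mem_virt hKL hL _
  have hD := congrArg (A.D K) key
  rw [A.map_add K hK _ ((Virt K).nsmul_mem hv1 n) _ ((Virt K).nsmul_mem hv2 c),
    nsmul_D A hK hv1, nsmul_D A hK hv2, A.map_ind K L hL hKL,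
    A.sum hK _ _ (fun i => ind_mem_virt (hKF i) (hF1 i) _)] at hD
  rw [← ha, hD]
  exact Finset.prod_congr rfl fun i _ => A.map_ind K (F i) (hF1 i) (hKF i) _

end Pool.Agent.TH139
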