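import Pool.Agent.TH139.Ord

open NumberField
open Pool.Agent.TH965.St

namespace Pool.Agent.TH139

/-- `ψ` is trivial at the infinite place `w`. -/
def Good (K : IntermediateField ℚ Qb) (ψ : LinChar K) (w : InfinitePlace K) : Prop :=
  ∀ (τ : Qb →+* ℂ) (c : K.fixingSubgroup),
    InfinitePlace.mk (τ.comp (algebraMap K Qb)) = w →
    (∀ x, τ ((c : GQ) x) = (starRingEnd ℂ) (τ x)) → ψ.hom c = 1

theorem exists_k {K : IntermediateField ℚ Qb} {τ τ' : Qb →+* ℂ}
    (h : τ.comp (algebraMap K Qb) = τ'.comp (algebraMap K Qb)) :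
    ∃ k : K.fixingSubgroup, ∀ x, τ' x = τ ((k : GQ) x) := by
  obtain ⟨σ, hσ⟩ := ComplexEmbedding.exists_comp_symm_eq_of_comp_eq τ τ' h
  refine ⟨(IntermediateField.fixingSubgroupEquiv K).symm σ.symm, fun x => ?_⟩
  exact (RingHom.congr_fun hσ x).symm

theorem exists_cc (τ : Qb →+* ℂ) : ∃ c : GQ, ∀ x, τ (c x) = (starRingEnd ℂ) (τ x) := by
  have h : τ.comp (algebraMap (⊥ : IntermediateField ℚ Qb) Qb) =
      ((starRingEnd ℂ).comp τ).comp (algebraMap (⊥ : IntermediateField ℚ Qb) Qb) := by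
    ext x
    obtain ⟨q, hq⟩ := IntermediateField.mem_bot.1 x.2
    have e : algebraMap (⊥ : IntermediateField ℚ Qb) Qb x = (q : Qb) := by
      have : algebraMap (⊥ : IntermediateField ℚ Qb) Qb x = (x : Qb) := rfl
      rw [this, ← hq]
      exact eq_ratCast _ _
    simp only [RingHom.comp_apply, e, map_ratCast]
  obtain ⟨k, hk⟩ := exists_k h
  exact ⟨k, fun x => (hk x).symm⟩

theorem exists_tau {K : IntermediateField ℚ Qb} (w : InfinitePlace K) :
    ∃ τ : Qb →+* ℂ, InfinitePlace.mk (τ.comp (algebraMap K Qb)) = w := by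
  let I : Algebra K ℂ := w.embedding.toAlgebra
  have : Algebra.IsAlgebraic K Qb := inferInstance
  let τ : Qb →ₐ[K] ℂ := IsAlgClosed.lift
  refine ⟨τ.toRingHom, ?_⟩
  have h : τ.toRingHom.comp (algebraMap K Qb) = w.embedding := by
    ext x
    exact τ.commutes x
  rw [h, InfinitePlace.mk_embedding]

/-- restriction of places -/
theorem mk_res {K K' : IntermediateField ℚ Qb} (h : K ≤ K') {τ τ' : Qb →+* ℂ}
    (hm : InfinitePlace.mk (τ.comp (algebraMap K' Qb)) =
      InfinitePlace.mk (τ'.comp (algebraMap K' Qb))) :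
    InfinitePlace.mk (τ.comp (algebraMap K Qb)) = InfinitePlace.mk (τ'.comp (algebraMap K Qb)) := by
  rcases InfinitePlace.mk_eq_iff.1 hm with h8 | h8
  · congr 1
    ext x
    exact RingHom.congr_fun h8 ⟨(x : Qb), h x.2⟩
  · rw [← InfinitePlace.mk_conjugate_eq]
    congr 1
    ext x
    exact RingHom.congr_fun h8 ⟨(x : Qb), h x.2⟩

theorem comp_out {K : IntermediateField ℚ Qb} (τ : Qb →+* ℂ) (k : K.fixingSubgroup) :
    (τ.comp ((k : GQ) : Qb →+* Qb)).comp (algebraMap K Qb) = τ.comp (algebraMap K Qb) := by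
  ext x
  show τ ((k : GQ) (x : Qb)) = τ (x : Qb)
  rw [(IntermediateField.mem_fixingSubgroup_iff _ _).1 k.2 x x.2]

theorem ord_eq {K K' : IntermediateField ℚ Qb} (h : K ≤ K')
    (hn : (K'.fixingSubgroup.subgroupOf K.fixingSubgroup).Normal)
    (hr : ∀ c ∈ K.fixingSubgroup, IsCC c → c ∈ K'.fixingSubgroup) (ψ : LinChar K) :
    ordSt K' (ψ.res h) = K'.fixingSubgroup.relIndex K.fixingSubgroup * ordSt K ψ := by
  classical
  choose τw hτw using fun w : InfinitePlace K => exists_tau w
  let U := K'.fixingSubgroup.subgroupOf K.fixingSubgroup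
  let e : (K.fixingSubgroup ⧸ U) × {w : InfinitePlace K // Good K ψ w} → InfinitePlace K' :=
    fun p => InfinitePlace.mk
      (((τw p.2.1).comp ((p.1.out : GQ) : Qb →+* Qb)).comp (algebraMap K' Qb))
  have heK : ∀ p, InfinitePlace.mk (((τw p.2.1).comp ((p.1.out : GQ) : Qb →+* Qb)).comp
      (algebraMap K Qb)) = (p : (K.fixingSubgroup ⧸ U) × {w : InfinitePlace K // Good K ψ w}).2.1 := by
    intro p
    rw [comp_out, hτw]
  have hgood : ∀ p, Good K' (ψ.res h) (e p) := by
    intro p τ c hτ hc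
    refine p.2.2 τ ⟨c, IntermediateField.fixingSubgroup_le h c.2⟩ ?_ hc
    rw [mk_res h hτ, heK]
  have hinj : Function.Injective e := by
    rintro ⟨q, w, hw⟩ ⟨q', v, hv⟩ hqq
    have hqq' : InfinitePlace.mk (((τw w).comp ((q.out : GQ) : Qb →+* Qb)).comp (algebraMap K' Qb))
      = InfinitePlace.mk (((τw v).comp ((q'.out : GQ) : Qb →+* Qb)).comp (algebraMap K' Qb)) := hqq
    have hwv : w = v := by
      have h1 := mk_res h hqq'
      rw [heK (q, ⟨w, hw⟩), heK (q', ⟨v, hv⟩)] at h1
      exact h1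
    subst hwv
    have hq : (q.out)⁻¹ * q'.out ∈ U := by
      rcases InfinitePlace.mk_eq_iff.1 hqq' with h8 | h8
      · rw [Subgroup.mem_subgroupOf, IntermediateField.mem_fixingSubgroup_iff]
        intro x hx
        have h9 : τw w ((q.out : GQ) x) = τw w ((q'.out : GQ) x) := RingHom.congr_fun h8 ⟨x, hx⟩
        have h10 := (τw w).injective h9
        simp only [Subgroup.coe_mul, Subgroup.coe_inv, AlgEquiv.mul_apply]
        rw [← h10]
        exact AlgEquiv.symm_apply_apply _ _
      · obtain ⟨c, hc⟩ := exists_cc (τw w)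
        -- `c q = q'` on `K'`
        have h9 : ∀ x ∈ K', c ((q.out : GQ) x) = (q'.out : GQ) x := by
          intro x hx
          apply (τw w).injective
          rw [hc]
          exact RingHom.congr_fun h8 ⟨x, hx⟩
        have hcK : c ∈ K.fixingSubgroup := by
          have h10 : ((q'.out : GQ)⁻¹ * (c * (q.out : GQ))) ∈ K'.fixingSubgroup := by
            rw [IntermediateField.mem_fixingSubgroup_iff]
            intro x hx
            rw [AlgEquiv.mul_apply, AlgEquiv.mul_apply, h9 x hx]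
            exact AlgEquiv.symm_apply_apply _ _
          have h11 := IntermediateField.fixingSubgroup_le h h10
          have h12 := K.fixingSubgroup.mul_mem (K.fixingSubgroup.mul_mem q'.out.2 h11)
            (K.fixingSubgroup.inv_mem q.out.2)
          have e1 : (q'.out : GQ) * ((q'.out : GQ)⁻¹ * (c * (q.out : GQ))) * (q.out : GQ)⁻¹ = c := by
            group
          rwa [e1] at h12
        have hcK' : c ∈ K'.fixingSubgroup := hr c hcK ⟨τw w, hc⟩
        have hcU : (⟨c, hcK⟩ : K.fixingSubgroup) ∈ U := Subgroup.mem_subgroupOf.2 hcK'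
        have h13 : (q'.out)⁻¹ * ((⟨c, hcK⟩ : K.fixingSubgroup) * q.out) ∈ U := by
          rw [Subgroup.mem_subgroupOf, IntermediateField.mem_fixingSubgroup_iff]
          intro x hx
          simp only [Subgroup.coe_mul, Subgroup.coe_inv, AlgEquiv.mul_apply]
          rw [h9 x hx]
          exact AlgEquiv.symm_apply_apply _ _
        have h14 : (q.out)⁻¹ * (⟨c, hcK⟩ : K.fixingSubgroup)⁻¹ * q.out ∈ U := by
          have := hn.conj_mem _ (U.inv_mem hcU) (q.out)⁻¹
          rwa [inv_inv] at this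
        have h15 := U.mul_mem h13 h14
        have e2 : (q'.out)⁻¹ * ((⟨c, hcK⟩ : K.fixingSubgroup) * q.out) *
          ((q.out)⁻¹ * (⟨c, hcK⟩ : K.fixingSubgroup)⁻¹ * q.out) = (q'.out)⁻¹ * q.out := by group
        rw [e2] at h15
        have h16 := U.inv_mem h15
        rwa [mul_inv_rev, inv_inv] at h16
    have h10 := QuotientGroup.eq.2 hq
    rw [QuotientGroup.out_eq', QuotientGroup.out_eq'] at h10
    rw [h10]
  have hsurj : ∀ w', Good K' (ψ.res h) w' → ∃ p, e p = w' := by
    intro w' hw'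
    obtain ⟨τ', hτ'⟩ := exists_tau w'
    have hgoodK : Good K ψ (InfinitePlace.mk (τ'.comp (algebraMap K Qb))) := by
      intro τ c hτ hc
      have h1 := comp_eq_of_mk_eq (K := K) (τ := τ) (τ' := τ') (c := (c : GQ)) hc c.2 hτ
      obtain ⟨k, hk⟩ := exists_k h1
      -- the conjugate complex conjugation at `τ'`
      have hc' : ∀ x, τ' (((k⁻¹ * c * k : K.fixingSubgroup) : GQ) x) = (starRingEnd ℂ) (τ' x) := by
        intro x
        rw [hk, hk, ← hc]
        congr 1
        simp only [Subgroup.coe_mul, Subgroup.coe_inv, AlgEquiv.mul_apply]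
        exact AlgEquiv.apply_symm_apply (k : GQ) _
      have h2 : ((k⁻¹ * c * k : K.fixingSubgroup) : GQ) ∈ K'.fixingSubgroup :=
        hr _ (k⁻¹ * c * k : K.fixingSubgroup).2 ⟨τ', hc'⟩
      have h3 : ψ.hom (k⁻¹ * c * k) = 1 := hw' τ' ⟨_, h2⟩ hτ' hc'
      rw [map_mul, map_mul, map_inv, mul_comm, mul_inv_cancel_left] at h3
      exact h3
    set w := InfinitePlace.mk (τ'.comp (algebraMap K Qb)) with hw
    -- an embedding inducing `w'` and restricting to `τw w`
    obtain ⟨τ'', h1, h2⟩ : ∃ τ'' : Qb →+* ℂ, InfinitePlace.mk (τ''.comp (algebraMap K' Qb)) = w' ∧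
        (τw w).comp (algebraMap K Qb) = τ''.comp (algebraMap K Qb) := by
      rcases InfinitePlace.mk_eq_iff.1 (hτw w) with h8 | h8
      · exact ⟨τ', hτ', h8⟩
      · refine ⟨(starRingEnd ℂ).comp τ', ?_, ?_⟩
        · rw [← hτ', ← InfinitePlace.mk_conjugate_eq (τ'.comp (algebraMap K' Qb))]
          rfl
        · rw [RingHom.comp_assoc, ← h8]
          ext x
          show τw w x = (starRingEnd ℂ) ((starRingEnd ℂ) (τw w x))
          rw [Complex.conj_conj]
    obtain ⟨k, hk⟩ := exists_k h2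
    refine ⟨(QuotientGroup.mk k, ⟨w, hgoodK⟩), ?_⟩
    rw [← h1]
    show InfinitePlace.mk (((τw w).comp (((QuotientGroup.mk k : K.fixingSubgroup ⧸ U).out : GQ) :
      Qb →+* Qb)).comp (algebraMap K' Qb)) = _
    congr 1
    ext x
    obtain ⟨⟨u, hu⟩, hu2⟩ := QuotientGroup.mk_out_eq_mul U k
    show τw w (((QuotientGroup.mk k : K.fixingSubgroup ⧸ U).out : GQ) (x : Qb)) = τ'' (x : Qb)
    rw [hk, hu2]
    simp only [Subgroup.coe_mul, AlgEquiv.mul_apply]
    rw [(IntermediateField.mem_fixingSubgroup_iff _ _).1 (Subgroup.mem_subgroupOf.1 hu) x x.2]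
  let f : (K.fixingSubgroup ⧸ U) × {w : InfinitePlace K // Good K ψ w} →
      {w' : InfinitePlace K' // Good K' (ψ.res h) w'} := fun p => ⟨e p, hgood p⟩
  have hf : Function.Bijective f := by
    constructor
    · intro p q hpq
      exact hinj (congrArg Subtype.val hpq)
    · rintro ⟨w', hw'⟩
      obtain ⟨p, hp⟩ := hsurj w' hw'
      exact ⟨p, Subtype.ext hp⟩
  have h1 := Nat.card_congr (Equiv.ofBijective f hf)
  rw [Nat.card_prod] at h1
  exact h1.symm

end Pool.Agent.TH139
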