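import Pool.Agent.TH139.Fam
import Pool.Agent.TH139.Dec
import Pool.Agent.TH139.OrdEq

open NumberField
open Pool.Agent.TH965.St

namespace Pool.Agent.TH139

/-- `F/K` is abelian of exponent `ℓ`; the infinite places of `K` and its primes above the rational
primes up to `T` split completely in `F`. -/
structure NiceSt (T ℓ : ℕ) (K F : IntermediateField ℚ Qb) : Prop where
  nf : NumberField F
  abelian : ∀ x ∈ K.fixingSubgroup, ∀ y ∈ K.fixingSubgroup, x * y * x⁻¹ * y⁻¹ ∈ F.fixingSubgroup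
  exponent : ∀ x ∈ K.fixingSubgroup, x ^ ℓ ∈ F.fixingSubgroup
  real : ∀ c ∈ K.fixingSubgroup, IsCC c → c ∈ F.fixingSubgroup
  finite : ∀ p, p.Prime → p ≤ T → ∀ g ∈ K.fixingSubgroup, IsDec p g → g ∈ F.fixingSubgroup

theorem one_prime {ℓ : ℕ} (hℓ : ℓ.Prime) (N T : ℕ) {K H : IntermediateField ℚ Qb}
    (hK : NumberField K) (hH : NumberField H) :
    ∃ (ι : Type) (_ : Fintype ι) (F : ι → IntermediateField ℚ Qb) (h : ∀ i, K ≤ F i)
      (n : ι → ℤ) (a : ℕ), (∀ i, NiceSt T ℓ K (F i) ∧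
        (∃ m, N ≤ m ∧ (F i).fixingSubgroup.relIndex K.fixingSubgroup = ℓ ^ m) ∧
        (∀ g ∈ K.fixingSubgroup, ∃ g' ∈ (F i).fixingSubgroup, g'⁻¹ * g ∈ H.fixingSubgroup)) ∧
      ∀ ψ : LinChar K, (∀ i, ordSt (F i) (ψ.res (h i)) =
          (F i).fixingSubgroup.relIndex K.fixingSubgroup * ordSt K ψ) ∧
        ∀ (M : Type) [CommGroup M] (A : Family M),
          A.D K ψ.fn ^ (ℓ ^ a) = ∏ i, A.D (F i) (ψ.res (h i)).fn ^ n i := by
  classical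
  obtain ⟨L, hL, hKL, hab, hexp, hidx, hloc, hsurj⟩ := exists_L T
    (fun g => IsCC g ∨ ∃ p, p.Prime ∧ p ≤ T ∧ IsDec p g) (loc_ok T) hK hH hℓ (ℓ ^ (N + 1))
  have norm : ∀ F : IntermediateField ℚ Qb, F ≤ L →
      (F.fixingSubgroup.subgroupOf K.fixingSubgroup).Normal := by
    intro F hFL
    have hle : L.fixingSubgroup ≤ F.fixingSubgroup := IntermediateField.fixingSubgroup_le hFL
    constructor
    intro x hx g
    have h0 : g * x * g⁻¹ * x⁻¹ ∈ F.fixingSubgroup.subgroupOf K.fixingSubgroup :=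
      Subgroup.mem_subgroupOf.2 (hle (Subgroup.mem_subgroupOf.1 (hab g x)))
    have h1 := Subgroup.mul_mem _ h0 hx
    have e : g * x * g⁻¹ * x⁻¹ * x = g * x * g⁻¹ := by group
    rwa [e] at h1
  have hl1 : 1 < ℓ := hℓ.one_lt
  have hbig : ℓ ≤ ℓ ^ (N + 1) := Nat.le_self_pow (by omega) ℓ
  obtain ⟨ι, hι, F, hKF, c, a, hF, hLa, hD⟩ := ab_step hK hL hKL hℓ (norm L le_rfl) hab hexp
    (by omega)
  -- all intermediate fields are nice
  have nice : ∀ F : IntermediateField ℚ Qb, NumberField F → F ≤ L → NiceSt T ℓ K F := by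
    intro F hF hFL
    have hle : L.fixingSubgroup ≤ F.fixingSubgroup := IntermediateField.fixingSubgroup_le hFL
    exact
      { nf := hF
        abelian := fun x hx y hy => hle (Subgroup.mem_subgroupOf.1 (hab ⟨x, hx⟩ ⟨y, hy⟩))
        exponent := fun x hx => hle (Subgroup.mem_subgroupOf.1 (hexp ⟨x, hx⟩))
        real := fun c hc h => hle (hloc c hc (Or.inl h))
        finite := fun p hp hpT g hg h => hle (hloc g hg (Or.inr ⟨p, hp, hpT, h⟩)) }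
  have surj : ∀ (F : IntermediateField ℚ Qb), F ≤ L →
      ∀ g ∈ K.fixingSubgroup, ∃ g' ∈ F.fixingSubgroup, g'⁻¹ * g ∈ H.fixingSubgroup := by
    intro F hFL g hg
    obtain ⟨g', hg', h1⟩ := hsurj ⟨g, hg⟩
    exact ⟨(g' : GQ), IntermediateField.fixingSubgroup_le hFL (Subgroup.mem_subgroupOf.1 hg'),
      Subgroup.mem_subgroupOf.1 h1⟩
  have hNa : N ≤ a := by
    have h1 : ℓ ^ (N + 1) ≤ ℓ ^ (a + 1) := by rw [hLa]; exact hidx
    have h2 := (Nat.pow_le_pow_iff_right hl1).1 h1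
    omega
  refine ⟨Option ι, inferInstance, fun i => i.elim L F, fun i => ?_, fun i => i.elim (-(c : ℤ))
    (fun _ => 1), a, ?_, fun ψ => ⟨?_, ?_⟩⟩
  · rcases i with _ | i
    · exact hKL
    · exact hKF i
  · rintro (_ | i)
    · exact ⟨nice L hL le_rfl, ⟨a + 1, by omega, hLa.symm⟩, surj L le_rfl⟩
    · exact ⟨nice (F i) (hF i).1 (hF i).2.1, ⟨a, hNa, (hF i).2.2⟩, surj (F i) (hF i).2.1⟩
  · rintro (_ | i)
    · exact ord_eq hKL (norm L le_rfl) (nice L hL le_rfl).real ψ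
    · exact ord_eq (hKF i) (norm (F i) (hF i).2.1) (nice (F i) (hF i).1 (hF i).2.1).real ψ
  · intro M _ A
    rw [Fintype.prod_option]
    have h1 := hD ψ M A
    simp only [Option.elim_none, Option.elim_some, zpow_one]
    rw [zpow_neg, zpow_natCast, eq_inv_mul_iff_mul_eq, mul_comm]
    exact h1

theorem mainSt {ℓ₁ ℓ₂ : ℕ} (h₁ : ℓ₁.Prime) (h₂ : ℓ₂.Prime) (hne : ℓ₁ ≠ ℓ₂) (N T : ℕ)
    {K H : IntermediateField ℚ Qb} (hK : NumberField K) (hH : NumberField H) :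
    ∃ (ι : Type) (_ : Fintype ι) (F : ι → IntermediateField ℚ Qb) (h : ∀ i, K ≤ F i)
      (n : ι → ℤ), (∀ i, ∃ ℓ m, (ℓ = ℓ₁ ∨ ℓ = ℓ₂) ∧ N ≤ m ∧ NiceSt T ℓ K (F i) ∧
          (F i).fixingSubgroup.relIndex K.fixingSubgroup = ℓ ^ m ∧
        (∀ g ∈ K.fixingSubgroup, ∃ g' ∈ (F i).fixingSubgroup, g'⁻¹ * g ∈ H.fixingSubgroup)) ∧
      ∀ ψ : LinChar K, (∀ i, ordSt (F i) (ψ.res (h i)) =
          (F i).fixingSubgroup.relIndex K.fixingSubgroup * ordSt K ψ) ∧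
        ∀ (M : Type) [CommGroup M] (A : Family M),
          A.D K ψ.fn = ∏ i, A.D (F i) (ψ.res (h i)).fn ^ n i := by
  obtain ⟨ι₁, _, F₁, k₁, n₁, a, g₁, e₁⟩ := one_prime h₁ N T hK hH
  obtain ⟨ι₂, _, F₂, k₂, n₂, b, g₂, e₂⟩ := one_prime h₂ N T hK hH
  have hco : IsCoprime ((ℓ₁ ^ a : ℕ) : ℤ) ((ℓ₂ ^ b : ℕ) : ℤ) := by
    rw [Nat.isCoprime_iff_coprime]
    exact Nat.Coprime.pow _ _ ((Nat.coprime_primes h₁ h₂).2 hne)
  obtain ⟨u, v, huv⟩ := hco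
  refine ⟨ι₁ ⊕ ι₂, inferInstance, Sum.elim F₁ F₂, fun i => ?_,
    Sum.elim (fun i => n₁ i * u) (fun i => n₂ i * v), ?_, fun ψ => ⟨?_, ?_⟩⟩
  · rcases i with i | i
    · exact k₁ i
    · exact k₂ i
  · rintro (i | i)
    · obtain ⟨x, ⟨m, y, z⟩, w⟩ := g₁ i
      exact ⟨ℓ₁, m, Or.inl rfl, y, x, z, w⟩
    · obtain ⟨x, ⟨m, y, z⟩, w⟩ := g₂ i
      exact ⟨ℓ₂, m, Or.inr rfl, y, x, z, w⟩
  · rintro (i | i)
    · exact (e₁ ψ).1 i
    · exact (e₂ ψ).1 i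
  · intro M _ A
    rw [Fintype.prod_sum_type]
    simp only [Sum.elim_inl, Sum.elim_inr]
    have d₁ : ∏ i, A.D (F₁ i) (ψ.res (k₁ i)).fn ^ (n₁ i * u) =
        A.D K ψ.fn ^ (((ℓ₁ ^ a : ℕ) : ℤ) * u) := by
      rw [zpow_mul, zpow_natCast, (e₁ ψ).2 M A, ← Finset.prod_zpow]
      exact Finset.prod_congr rfl fun i _ => zpow_mul _ _ _
    have d₂ : ∏ i, A.D (F₂ i) (ψ.res (k₂ i)).fn ^ (n₂ i * v) =
        A.D K ψ.fn ^ (((ℓ₂ ^ b : ℕ) : ℤ) * v) := by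
      rw [zpow_mul, zpow_natCast, (e₂ ψ).2 M A, ← Finset.prod_zpow]
      exact Finset.prod_congr rfl fun i _ => zpow_mul _ _ _
    rw [d₁, d₂, ← zpow_add]
    have e : ((ℓ₁ ^ a : ℕ) : ℤ) * u + ((ℓ₂ ^ b : ℕ) : ℤ) * v = 1 := by
      rw [← huv]; ring
    rw [e, zpow_one]

end Pool.Agent.TH139
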