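import Pool.Agent.TH965.St.Transfer

open NumberField
open Pool.Agent.TH965.St

namespace Pool.Agent.TH139

/-- The number of infinite places `w` of `K` such that `ψ(c) = 1` for every complex conjugation
`c` of `K` at `w`. -/
noncomputable def ordSt (K : IntermediateField ℚ Qb) (ψ : LinChar K) : ℕ :=
  Nat.card {w : InfinitePlace K // ∀ (τ : Qb →+* ℂ) (c : K.fixingSubgroup),
    InfinitePlace.mk (τ.comp (algebraMap K Qb)) = w →
    (∀ x, τ ((c : GQ) x) = (starRingEnd ℂ) (τ x)) → ψ.hom c = 1}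

theorem ord_growth {K K' : IntermediateField ℚ Qb} (hK' : NumberField K')
    (h : K ≤ K') (ψ : LinChar K) (h1 : 1 ≤ ordSt K ψ) :
    (K'.fixingSubgroup.subgroupOf K.fixingSubgroup).index ≤ 2 * ordSt K' (ψ.res h) := by
  classical
  obtain ⟨⟨w, hw⟩⟩ : Nonempty {w : InfinitePlace K // ∀ (τ : Qb →+* ℂ) (c : K.fixingSubgroup),
    InfinitePlace.mk (τ.comp (algebraMap K Qb)) = w →
    (∀ x, τ ((c : GQ) x) = (starRingEnd ℂ) (τ x)) → ψ.hom c = 1} := by
    by_contra hne
    rw [not_nonempty_iff] at hne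
    have : ordSt K ψ = 0 := Nat.card_of_isEmpty
    omega
  -- an embedding extending `w`
  obtain ⟨τ0, hτ0⟩ : ∃ τ0 : Qb →+* ℂ, τ0.comp (algebraMap K Qb) = w.embedding := by
    let I : Algebra K ℂ := w.embedding.toAlgebra
    have : Algebra.IsAlgebraic K Qb := inferInstance
    let τ : Qb →ₐ[K] ℂ := IsAlgClosed.lift
    refine ⟨τ.toRingHom, ?_⟩
    ext x
    exact τ.commutes x
  let good : Finset (InfinitePlace K') := Finset.univ.filter fun w' =>
    ∀ (τ : Qb →+* ℂ) (c : K'.fixingSubgroup),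
    InfinitePlace.mk (τ.comp (algebraMap K' Qb)) = w' →
    (∀ x, τ ((c : GQ) x) = (starRingEnd ℂ) (τ x)) → (ψ.res h).hom c = 1
  have hgood : ordSt K' (ψ.res h) = good.card := by
    unfold ordSt
    rw [Nat.card_eq_fintype_card, Fintype.card_subtype]
  have h2 : Finite (GQ ⧸ K'.fixingSubgroup) := finite_quot_of_open hK' _ le_rfl
  have h3 : (K'.fixingSubgroup).FiniteIndex := Subgroup.finiteIndex_of_finite_quotient
  have h4 : (K'.fixingSubgroup.subgroupOf K.fixingSubgroup).FiniteIndex := inferInstance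
  have h5 : Finite (K.fixingSubgroup ⧸ (K'.fixingSubgroup.subgroupOf K.fixingSubgroup)) :=
    Subgroup.finite_quotient_of_finiteIndex
  have : Fintype (K.fixingSubgroup ⧸ (K'.fixingSubgroup.subgroupOf K.fixingSubgroup)) :=
    Fintype.ofFinite _
  let e : (K.fixingSubgroup ⧸ (K'.fixingSubgroup.subgroupOf K.fixingSubgroup)) → (K' →+* ℂ) :=
    fun q => (τ0.comp ((q.out : GQ) : Qb →+* Qb)).comp (algebraMap K' Qb)
  have he : Function.Injective e := by
    intro q q' hqq
    have h6 : (q.out)⁻¹ * q'.out ∈ K'.fixingSubgroup.subgroupOf K.fixingSubgroup := by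
      rw [Subgroup.mem_subgroupOf, IntermediateField.mem_fixingSubgroup_iff]
      intro x hx
      have h7 := RingHom.congr_fun hqq ⟨x, hx⟩
      have h8 : τ0 ((q.out : GQ) x) = τ0 ((q'.out : GQ) x) := h7
      have h9 := τ0.injective h8
      simp only [Subgroup.coe_mul, Subgroup.coe_inv, AlgEquiv.mul_apply]
      rw [← h9]
      exact AlgEquiv.symm_apply_apply _ _
    have h10 := QuotientGroup.eq.2 h6
    rwa [QuotientGroup.out_eq', QuotientGroup.out_eq'] at h10
  have hmap : ∀ q ∈ (Finset.univ : Finset (K.fixingSubgroup ⧸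
      (K'.fixingSubgroup.subgroupOf K.fixingSubgroup))), InfinitePlace.mk (e q) ∈ good := by
    intro q _
    refine Finset.mem_filter.2 ⟨Finset.mem_univ _, ?_⟩
    intro τ c hτ hc
    refine hw τ ⟨c, IntermediateField.fixingSubgroup_le h c.2⟩ ?_ hc
    have h6 : ∀ x : K, (q.out : GQ) (x : Qb) = x := fun x =>
      (IntermediateField.mem_fixingSubgroup_iff _ _).1 q.out.2 x x.2
    have h7 : InfinitePlace.mk (τ0.comp (algebraMap K Qb)) = w := by
      rw [hτ0, InfinitePlace.mk_embedding]
    rw [← h7]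
    rcases InfinitePlace.mk_eq_iff.1 hτ with h8 | h8
    · congr 1
      ext x
      have h9 := RingHom.congr_fun h8 ⟨(x : Qb), h x.2⟩
      have h10 : τ (x : Qb) = τ0 ((q.out : GQ) (x : Qb)) := h9
      show τ (x : Qb) = τ0 (x : Qb)
      rw [h10, h6]
    · rw [← InfinitePlace.mk_conjugate_eq]
      congr 1
      ext x
      have h9 := RingHom.congr_fun h8 ⟨(x : Qb), h x.2⟩
      have h10 : (starRingEnd ℂ) (τ (x : Qb)) = τ0 ((q.out : GQ) (x : Qb)) := h9
      show (starRingEnd ℂ) (τ (x : Qb)) = τ0 (x : Qb)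
      rw [h10, h6]
  have hfib : ∀ w' ∈ good, (Finset.univ.filter fun q => InfinitePlace.mk (e q) = w').card ≤ 2 := by
    intro w' _
    have h6 : (Finset.univ.filter fun q => InfinitePlace.mk (e q) = w').card ≤
        (Finset.univ.filter fun φ : K' →+* ℂ => InfinitePlace.mk φ = w').card := by
      refine Finset.card_le_card_of_injOn e ?_ (he.injOn)
      intro q hq
      have := (Finset.mem_filter.1 hq).2
      exact Finset.mem_coe.2 (Finset.mem_filter.2 ⟨Finset.mem_univ _, this⟩)
    rw [InfinitePlace.card_filter_mk_eq] at h6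
    refine h6.trans ?_
    unfold InfinitePlace.mult
    split_ifs <;> omega
  have h6 := Finset.card_le_mul_card_image_of_maps_to hmap 2 hfib
  rw [hgood]
  have h7 : (K'.fixingSubgroup.subgroupOf K.fixingSubgroup).index = (Finset.univ : Finset
    (K.fixingSubgroup ⧸ (K'.fixingSubgroup.subgroupOf K.fixingSubgroup))).card := by
    rw [Finset.card_univ, ← Nat.card_eq_fintype_card]
    rfl
  rw [h7]
  exact h6

end Pool.Agent.TH139
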