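import Pool.Agent.TH139.Defs
import Pool.Agent.TH139.Fin

open NumberField
open Pool.Agent.TH965.Stk

namespace Pool.Agent.TH139.Ab

theorem mainStk {ℓ₁ ℓ₂ : ℕ} (h₁ : ℓ₁.Prime) (h₂ : ℓ₂.Prime) (hne : ℓ₁ ≠ ℓ₂) (N T : ℕ)
    (K H : SubQ) (hK : IsNF K) (hH : IsNF H) :
    ∃ (ι : Type) (_ : Fintype ι) (K' : ι → SubQ) (h : ∀ i, Incl K (K' i)) (n : ι → ℤ),
      (∀ i, ∃ ℓ m, (ℓ = ℓ₁ ∨ ℓ = ℓ₂) ∧ N ≤ m ∧ IsNice T ℓ m K H (K' i)) ∧
      ∀ ψ : LinChar K,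
        (∀ i, ord (K' i) (res ψ (h i)) = (G (K' i)).relIndex (G K) * ord K ψ) ∧
        ∀ (M : Type) [CommGroup M] (A : Family M),
          A.D K ψ.fn = ∏ i, A.D (K' i) (res ψ (h i)).fn ^ n i := by
  obtain ⟨ι, hι, F, h, n, h1, h2⟩ := Pool.Agent.TH139.mainSt h₁ h₂ hne N T (K := K.toIF)
    (H := H.toIF) hK hH
  refine ⟨ι, hι, F, h, n, fun i => ?_, fun ψ => ⟨(h2 ψ.old).1, ?_⟩⟩
  · obtain ⟨ℓ, m, hl, hm, X, hd, ho⟩ := h1 i
    refine ⟨ℓ, m, hl, hm, ?_⟩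
    exact
      { nf := X.nf
        incl := h i
        abelian := X.abelian
        exponent := X.exponent
        degree := hd
        infinite := X.real
        finite := X.finite
        disjoint := ho }
  · intro M _ A
    exact (h2 ψ.old).2 M A.old

end Pool.Agent.TH139.Ab
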